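import Pool.Agent.Y802.Cliff
import Pool.Agent.Y803.PT.Stm

/-! # PT-CLIFF: restriction of a semisimple representation to a normal subgroup -/

set_option autoImplicit false

namespace Pool.Agent.Y131.PT

open Module Pool.Agent.Y800 Pool.Agent.Y802

section gen

variable {H : Type*} [Group H] {k : Type*} [Field k] {n : ℕ}

/-- minimal nonzero stable subspaces -/
def Mini (σ : H →* GL (Fin n) k) (S : Submodule k (Fin n → k)) : Prop :=
  Stable σ S ∧ S ≠ ⊥ ∧ ∀ X : Submodule k (Fin n → k), Stable σ X → X ≤ S → X ≠ ⊥ → X = S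

theorem stable_sup (σ : H →* GL (Fin n) k) {A B : Submodule k (Fin n → k)} (hA : Stable σ A)
    (hB : Stable σ B) : Stable σ (A ⊔ B) := by
  intro x w hw
  rw [Submodule.mem_sup] at hw ⊢
  obtain ⟨a, ha, b, hb, rfl⟩ := hw
  exact ⟨_, hA x a ha, _, hB x b hb, (Matrix.mulVec_add _ _ _).symm⟩

theorem stable_inf (σ : H →* GL (Fin n) k) {A B : Submodule k (Fin n → k)} (hA : Stable σ A)
    (hB : Stable σ B) : Stable σ (A ⊓ B) :=
  fun x w hw => ⟨hA x w hw.1, hB x w hw.2⟩

/-- if the minimal stable subspaces span, the representation is semisimple -/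
theorem ss_of_span (σ : H →* GL (Fin n) k) (h : sSup {S | Mini σ S} = ⊤) : IsSemisimpleRep σ := by
  classical
  intro W hW
  have hex : ∃ d : ℕ, ∃ W' : Submodule k (Fin n → k), Stable σ W' ∧ Disjoint W W' ∧
      finrank k (Fin n → k) - finrank k W' = d :=
    ⟨_, ⊥, fun g w hw => by
      rw [Submodule.mem_bot] at hw ⊢; rw [hw, Matrix.mulVec_zero], disjoint_bot_right, rfl⟩
  obtain ⟨W', hW', hdis, hd⟩ := Nat.find_spec hex
  have hmax : ∀ X : Submodule k (Fin n → k), Stable σ X → Disjoint W X → W' ≤ X →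
      X = W' := by
    intro X hX hXd hle
    have h1 := Nat.find_min' hex ⟨X, hX, hXd, rfl⟩
    rw [← hd] at h1
    have h2 := Submodule.finrank_mono hle
    have h3 : finrank k X ≤ finrank k (Fin n → k) := Submodule.finrank_le X
    exact (Submodule.eq_of_le_of_finrank_le hle (by omega)).symm
  refine ⟨W', hW', ⟨hdis, ?_⟩⟩
  rw [codisjoint_iff]
  by_contra hne
  have h1 : ∃ S, Mini σ S ∧ ¬ S ≤ W ⊔ W' := by
    by_contra hall
    push Not at hall
    apply hne
    rw [eq_top_iff, ← h]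
    exact sSup_le fun S hS => hall S hS
  obtain ⟨S, hS, hSn⟩ := h1
  have hdis2 : Disjoint (W ⊔ W') S := by
    rw [disjoint_iff]
    by_contra hb
    have h2 := hS.2.2 ((W ⊔ W') ⊓ S) (stable_inf σ (stable_sup σ hW hW') hS.1) inf_le_right hb
    apply hSn
    rw [← h2]
    exact inf_le_left
  have h4 : Disjoint W (W' ⊔ S) := Disjoint.disjoint_sup_right_of_disjoint_sup_left hdis hdis2
  have h5 := hmax (W' ⊔ S) (stable_sup σ hW' hS.1) h4 le_sup_left
  apply hSn
  have h6 : S ≤ W' := by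
    rw [← h5]; exact le_sup_right
  exact h6.trans le_sup_right

/-- a nonzero stable subspace contains a minimal one -/
theorem exists_mini (σ : H →* GL (Fin n) k) {T : Submodule k (Fin n → k)} (hT : Stable σ T)
    (hne : T ≠ ⊥) : ∃ S, Mini σ S ∧ S ≤ T := by
  classical
  have hex2 : ∃ d : ℕ, ∃ S : Submodule k (Fin n → k), Stable σ S ∧ S ≠ ⊥ ∧ S ≤ T ∧
      finrank k S = d := ⟨_, T, hT, hne, le_rfl, rfl⟩
  obtain ⟨S, hS, hSne, hST, hSd⟩ := Nat.find_spec hex2
  refine ⟨S, ⟨hS, hSne, fun X hX hle hXne => ?_⟩, hST⟩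
  have h1 := Nat.find_min' hex2 ⟨X, hX, hXne, hle.trans hST, rfl⟩
  rw [← hSd] at h1
  exact Submodule.eq_of_le_of_finrank_le hle h1

end gen

section trs

variable {G : Type*} [Group G] {k : Type*} [Field k] {n : ℕ}

theorem tr_mono (ρ : G →* GL (Fin n) k) (g : G) {A B : Submodule k (Fin n → k)} (h : A ≤ B) :
    tr ρ g A ≤ tr ρ g B := Submodule.map_mono h

theorem tr_tr (ρ : G →* GL (Fin n) k) (g h : G) (A : Submodule k (Fin n → k)) :
    tr ρ g (tr ρ h A) = tr ρ (g * h) A := by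
  ext v
  rw [mem_tr, mem_tr, mem_tr, Matrix.mulVec_mulVec, ← Units.val_mul, ← map_mul, mul_inv_rev]

theorem tr_one (ρ : G →* GL (Fin n) k) (A : Submodule k (Fin n → k)) : tr ρ 1 A = A := by
  ext v
  rw [mem_tr, inv_one, map_one, Units.val_one, Matrix.one_mulVec]

theorem tr_bot (ρ : G →* GL (Fin n) k) (g : G) :
    tr ρ g (⊥ : Submodule k (Fin n → k)) = ⊥ := Submodule.map_bot _

theorem tr_mini (ρ : G →* GL (Fin n) k) (N : Subgroup G) [N.Normal] (g : G)
    {S : Submodule k (Fin n → k)} (hS : Mini (ρ.comp N.subtype) S) :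
    Mini (ρ.comp N.subtype) (tr ρ g S) := by
  refine ⟨tr_stable ρ N g hS.1, fun h => hS.2.1 ?_, fun X hX hle hne => ?_⟩
  · have h1 := congrArg (tr ρ g⁻¹) h
    rwa [tr_tr, inv_mul_cancel, tr_one, tr_bot] at h1
  · have h1 := hS.2.2 (tr ρ g⁻¹ X) (tr_stable ρ N g⁻¹ hX) ?_ ?_
    · rw [← h1, tr_tr, mul_inv_cancel, tr_one]
    · have h2 := tr_mono ρ g⁻¹ hle
      rwa [tr_tr, inv_mul_cancel, tr_one] at h2
    · intro h
      apply hne
      have h1 := congrArg (tr ρ g) h
      rwa [tr_tr, mul_inv_cancel, tr_one, tr_bot] at h1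

end trs

theorem cliff : Pool.Agent.Y803.PT.Cliff := by
  intro G _ k _ n ρ N _ hρ
  apply ss_of_span
  set T := sSup {S | Mini (ρ.comp N.subtype) S} with hT
  have hTst : Stable ρ T := by
    intro g w hw
    have h1 : tr ρ g T ≤ T := by
      rw [hT]
      have e : tr ρ g (sSup {S | Mini (ρ.comp N.subtype) S}) =
          ⨆ S ∈ {S | Mini (ρ.comp N.subtype) S}, tr ρ g S := by
        unfold tr
        rw [sSup_eq_iSup, Submodule.map_iSup]
        congr 1
        funext S
        rw [Submodule.map_iSup]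
      rw [e]
      refine iSup₂_le fun S hS => ?_
      exact le_sSup (tr_mini ρ N g hS)
    apply h1
    rw [mem_tr, Matrix.mulVec_mulVec, ← Units.val_mul, ← map_mul, inv_mul_cancel, map_one,
      Units.val_one, Matrix.one_mulVec]
    exact hw
  obtain ⟨T', hT', hc⟩ := hρ T hTst
  have hT'0 : T' = ⊥ := by
    by_contra hne
    obtain ⟨S, hS, hle⟩ := exists_mini (ρ.comp N.subtype) (T := T') (fun x w hw => hT' x w hw) hne
    have h1 : S ≤ T := le_sSup hS
    exact hS.2.1 (eq_bot_iff.2 (hc.disjoint h1 hle))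
  rw [hT'0] at hc
  have := hc.sup_eq_top
  rwa [sup_bot_eq] at this

end Pool.Agent.Y131.PT
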