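import Pool.Agent.Y803.PT.Stm

/-! # PT-MASCHKE: semisimplicity can be tested on a subgroup of finite index -/

set_option autoImplicit false

namespace Pool.Agent.Y131.PT

open Module Pool.Agent.Y800

theorem masch : Pool.Agent.Y803.PT.Masch := by
  classical
  intro G _ k _ _ n ρ H _ hH W hW
  obtain ⟨W', hW', hc⟩ := hH W (fun x w hw => hW x w hw)
  haveI : Fintype (G ⧸ H) := Fintype.ofFinite _
  -- the operators of the representation
  let A : G → ((Fin n → k) →ₗ[k] (Fin n → k)) :=
    fun g => Matrix.toLin' (ρ g : Matrix (Fin n) (Fin n) k)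
  have hA : ∀ g v, A g v = (ρ g : Matrix (Fin n) (Fin n) k).mulVec v := fun g v =>
    Matrix.toLin'_apply _ _
  have hmul : ∀ g h v, A (g * h) v = A g (A h v) := by
    intro g h v
    rw [hA, hA, hA, Matrix.mulVec_mulVec, map_mul, Units.val_mul]
  have hone : ∀ v, A 1 v = v := by
    intro v
    rw [hA, map_one, Units.val_one, Matrix.one_mulVec]
  have hinv : ∀ g v, A g (A g⁻¹ v) = v := by
    intro g v
    rw [← hmul, mul_inv_cancel, hone]
  have hinv' : ∀ g v, A g⁻¹ (A g v) = v := by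
    intro g v
    rw [← hmul, inv_mul_cancel, hone]
  -- the projection
  have hp : ∃ p : (Fin n → k) →ₗ[k] (Fin n → k), (∀ v, p v ∈ W) ∧ (∀ w ∈ W, p w = w) ∧
      (∀ w ∈ W', p w = 0) := by
    refine ⟨W.subtype ∘ₗ Submodule.projectionOnto W W' hc, fun v => ?_, fun w hw => ?_,
      fun w hw => ?_⟩
    · exact (Submodule.projectionOnto W W' hc v).2
    · have := Submodule.projectionOnto_apply_left hc ⟨w, hw⟩
      simp only [LinearMap.comp_apply]
      rw [this]
      rfl
    · have := (Submodule.projectionOnto_apply_eq_zero_iff hc (x := w)).2 hw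
      simp only [LinearMap.comp_apply]
      rw [this, map_zero]
  obtain ⟨p, hp1, hp2, hp3⟩ := hp
  have hcomm : ∀ h ∈ H, ∀ v, A h (p v) = p (A h v) := by
    intro h hh v
    obtain ⟨a, ha, b, hb, rfl⟩ : ∃ a ∈ W, ∃ b ∈ W', a + b = v := by
      have : v ∈ W ⊔ W' := by rw [hc.sup_eq_top]; trivial
      exact Submodule.mem_sup.1 this
    have h1 : A h a ∈ W := by rw [hA]; exact hW h a ha
    have h2 : A h b ∈ W' := by rw [hA]; exact hW' ⟨h, hh⟩ b hb
    rw [map_add, map_add, map_add, map_add, hp2 a ha, hp3 b hb, hp2 _ h1, hp3 _ h2, map_zero]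
  let F : G → ((Fin n → k) →ₗ[k] (Fin n → k)) := fun g => A g ∘ₗ p ∘ₗ A g⁻¹
  have hF : ∀ g v, F g v = A g (p (A g⁻¹ v)) := fun g v => rfl
  have hFH : ∀ g, ∀ h ∈ H, F (g * h) = F g := by
    intro g h hh
    refine LinearMap.ext fun v => ?_
    rw [hF, hF, hmul, hcomm h hh, ← hmul h, mul_inv_rev, mul_inv_cancel_left]
  have hFout : ∀ g : G, F ((g : G ⧸ H).out) = F g := by
    intro g
    obtain ⟨h, hh⟩ := QuotientGroup.mk_out_eq_mul H g
    rw [hh]
    exact hFH g h h.2
  let m : k := (Fintype.card (G ⧸ H) : k)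
  have hm : m ≠ 0 := by
    have : Fintype.card (G ⧸ H) ≠ 0 := Fintype.card_ne_zero
    show ((Fintype.card (G ⧸ H) : ℕ) : k) ≠ 0
    exact Nat.cast_ne_zero.2 this
  let P : (Fin n → k) →ₗ[k] (Fin n → k) := m⁻¹ • ∑ c : G ⧸ H, F c.out
  have hP : ∀ v, P v = m⁻¹ • ∑ c : G ⧸ H, F c.out v := by
    intro v
    simp only [P, LinearMap.smul_apply, LinearMap.sum_apply]
  have hPW : ∀ v, P v ∈ W := by
    intro v
    rw [hP]
    refine Submodule.smul_mem _ _ (Submodule.sum_mem _ fun c _ => ?_)
    rw [hF, hA]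
    exact hW _ _ (hp1 _)
  have hPid : ∀ w ∈ W, P w = w := by
    intro w hw
    have h1 : ∀ c : G ⧸ H, F c.out w = w := by
      intro c
      rw [hF, hp2 _ (by rw [hA]; exact hW _ _ hw), hinv]
    rw [hP, Finset.sum_congr rfl (fun c _ => h1 c), Finset.sum_const, Finset.card_univ,
      ← Nat.cast_smul_eq_nsmul k, smul_smul, inv_mul_cancel₀ hm, one_smul]
  have hPc : ∀ g v, A g (P v) = P (A g v) := by
    intro g v
    rw [hP, hP, map_smul, map_sum]
    congr 1
    have h1 : ∀ c : G ⧸ H, A g (F c.out v) = F ((g • c).out) (A g v) := by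
      intro c
      have h2 : F ((g • c).out) = F (g * c.out) := by
        have h3 : (g • c) = ((g * c.out : G) : G ⧸ H) := by
          conv_lhs => rw [← QuotientGroup.out_eq' c]
          rfl
        rw [h3]
        exact hFout _
      rw [h2, hF, hF, hmul, mul_inv_rev, hmul, hinv']
    rw [Finset.sum_congr rfl (fun c _ => h1 c)]
    exact Fintype.sum_equiv (MulAction.toPerm g) _ _ (fun c => rfl)
  refine ⟨LinearMap.ker P, fun g w hw => ?_, ?_⟩
  · rw [LinearMap.mem_ker] at hw ⊢
    rw [← hA, ← hPc, hw, map_zero]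
  · have h1 : IsCompl W (LinearMap.ker (LinearMap.codRestrict W P hPW)) := by
      apply LinearMap.isCompl_of_proj
      intro x
      apply Subtype.ext
      exact hPid x x.2
    rwa [LinearMap.ker_codRestrict] at h1

end Pool.Agent.Y131.PT
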